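import Pool.Agent.Q57.QP.Stm

set_option autoImplicit false

/-! # Project QP of helper57, job GLUE: basic properties of `LP` -/

namespace Pool.Agent.Q261.QP

open MeasureTheory MvPolynomial Topology
open Pool.Agent.W427.SMC Pool.Agent.Y230.PT Pool.Agent.Y230.PS
open Pool.Agent.Q57.QP
open scoped ENNReal

attribute [local instance] msK bsK msZ bsZ

variable {p : ℕ} [Fact p.Prime] {σ : Type} [Fintype σ]

lemma pR : (1 : ℝ) < p := by exact_mod_cast (Fact.out : p.Prime).one_lt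

lemma pR0 : (0 : ℝ) < p := lt_trans one_pos pR

lemma siz_nonneg {h : (σ → ℚ_[p]) → ℝ} (hh : Siz h) (x : σ → ℚ_[p]) : 0 ≤ h x := by
  rcases hh.val x with h1 | ⟨k, h1⟩
  · exact h1.ge
  · rw [h1]
    exact (zpow_pos pR0 k).le

lemma muE_lt_top {V : Set (σ → ℚ_[p])} (hV : IsCompact V) : muE p σ V < ⊤ := by
  have : IsLocallyFiniteMeasure (muE p σ) := by
    unfold muE
    infer_instance
  exact hV.measure_lt_top

lemma int_ne_top {h : (σ → ℚ_[p]) → ℝ} (hh : Siz h) {V : Set (σ → ℚ_[p])} (hV : IsCompact V) {s : ℝ}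
    (hs : 0 ≤ s) : ∫⁻ x in V, ENNReal.ofReal (h x ^ s) ∂(muE p σ) ≠ ⊤ := by
  obtain ⟨B, hB⟩ := hV.exists_bound_of_continuousOn hh.cont.continuousOn
  have h1 : ∫⁻ x in V, ENNReal.ofReal (h x ^ s) ∂(muE p σ) ≤
      ∫⁻ _ in V, ENNReal.ofReal (B ^ s) ∂(muE p σ) := by
    refine setLIntegral_mono' hV.measurableSet fun x hx => ?_
    refine ENNReal.ofReal_le_ofReal (Real.rpow_le_rpow (siz_nonneg hh x) ?_ hs)
    exact (le_abs_self _).trans (hB x hx)
  refine (h1.trans_lt ?_).ne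
  rw [setLIntegral_const]
  exact ENNReal.mul_lt_top ENNReal.ofReal_lt_top (muE_lt_top hV)

lemma IZ_union {h : (σ → ℚ_[p]) → ℝ} (hh : Siz h) {V W : Set (σ → ℚ_[p])} (hV : CO V) (hW : CO W)
    (hd : Disjoint V W) {s : ℝ} (hs : 0 ≤ s) : IZ h V s + IZ h W s = IZ h (V ∪ W) s := by
  unfold IZ
  rw [lintegral_union hW.2.measurableSet hd,
    ENNReal.toReal_add (int_ne_top hh hV.1 hs) (int_ne_top hh hW.1 hs)]
  push_cast
  rfl

lemma CO_union {V W : Set (σ → ℚ_[p])} (hV : CO V) (hW : CO W) : CO (V ∪ W) :=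
  ⟨hV.1.union hW.1, hV.2.union hW.2⟩

lemma CO_ball (a : σ → ℚ_[p]) (k : ℤ) : CO (Metric.closedBall a ((p : ℝ) ^ k)) :=
  ⟨isCompact_closedBall _ _, IsUltrametricDist.isOpen_closedBall a (zpow_pos pR0 k).ne'⟩

open Classical in
lemma FR_sUnion {h : (σ → ℚ_[p]) → ℝ} (hh : Siz h) (m : ℂ → ℕ∞) (S : Finset (Set (σ → ℚ_[p])))
    (h1 : ∀ B ∈ S, CO B) (h2 : ∀ B ∈ S, FR p m (IZ h B))
    (h3 : ∀ B ∈ S, ∀ B' ∈ S, B ≠ B' → Disjoint B B') :
    CO (⋃ B ∈ S, B) ∧ FR p m (IZ h (⋃ B ∈ S, B)) := by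
  induction S using Finset.induction_on with
  | empty =>
    have e : (⋃ B ∈ (∅ : Finset (Set (σ → ℚ_[p]))), B) = ∅ := by simp
    rw [e]
    refine ⟨⟨isCompact_empty, isOpen_empty⟩, (FR_const m 0).congr fun s _ => ?_⟩
    unfold IZ
    simp
  | insert B S hB ih =>
    obtain ⟨i1, i2⟩ := ih (fun B' h => h1 B' (Finset.mem_insert_of_mem h))
      (fun B' h => h2 B' (Finset.mem_insert_of_mem h))
      (fun B' h B'' h' => h3 B' (Finset.mem_insert_of_mem h) B'' (Finset.mem_insert_of_mem h'))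
    have c1 := h1 B (Finset.mem_insert_self _ _)
    have e : (⋃ B' ∈ insert B S, B') = B ∪ ⋃ B' ∈ S, B' := by
      rw [Finset.set_biUnion_insert]
    rw [e]
    have hd : Disjoint B (⋃ B' ∈ S, B') := by
      rw [Set.disjoint_iUnion₂_right]
      intro B' hB'
      exact h3 B (Finset.mem_insert_self _ _) B' (Finset.mem_insert_of_mem hB') fun e =>
        hB (e ▸ hB')
    refine ⟨CO_union c1 i1, ((h2 B (Finset.mem_insert_self _ _)).add i2).congr fun s hs => ?_⟩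
    exact IZ_union hh c1 i1 hd hs

/-- gluing -/
lemma glue {h : (σ → ℚ_[p]) → ℝ} (hh : Siz h) (m : ℂ → ℕ∞) (V : Set (σ → ℚ_[p])) (hV : CO V)
    (hloc : ∀ P ∈ V, ∃ U : Set (σ → ℚ_[p]), IsOpen U ∧ P ∈ U ∧ ∀ (a : σ → ℚ_[p]) (k : ℤ),
      Metric.closedBall a ((p : ℝ) ^ k) ⊆ U → FR p m (IZ h (Metric.closedBall a ((p : ℝ) ^ k)))) :
    FR p m (IZ h V) := by
  classical
  choose! U hU1 hU2 hU3 using hloc
  obtain ⟨δ, hδ, hδ'⟩ := lebesgue_number_lemma_of_metric (s := V) (c := fun P : V => V ∩ U P) hV.1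
    (fun P => hV.2.inter (hU1 P P.2)) (fun x hx => Set.mem_iUnion.2 ⟨⟨x, hx⟩, hx, hU2 x hx⟩)
  obtain ⟨n, hn⟩ := exists_pow_lt_of_lt_one hδ (inv_lt_one_of_one_lt₀ (pR (p := p)))
  set k : ℤ := -(n : ℤ) with hk
  have hkδ : (p : ℝ) ^ k < δ := by
    rw [hk, zpow_neg, zpow_natCast, ← inv_pow]
    exact hn
  have hball : ∀ x ∈ V, Metric.closedBall x ((p : ℝ) ^ k) ⊆ V ∧
      FR p m (IZ h (Metric.closedBall x ((p : ℝ) ^ k))) := by
    intro x hx
    obtain ⟨P, hP⟩ := hδ' x hx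
    have h1 : Metric.closedBall x ((p : ℝ) ^ k) ⊆ V ∩ U P :=
      (Metric.closedBall_subset_ball hkδ).trans hP
    exact ⟨fun y hy => (h1 hy).1, hU3 P P.2 x k fun y hy => (h1 hy).2⟩
  obtain ⟨t, ht1, ht2⟩ := hV.1.elim_nhds_subcover (fun x => Metric.closedBall x ((p : ℝ) ^ k))
    (fun x _ => Metric.closedBall_mem_nhds x (zpow_pos pR0 k))
  let S : Finset (Set (σ → ℚ_[p])) := t.image fun x => Metric.closedBall x ((p : ℝ) ^ k)
  have e : V = ⋃ B ∈ S, B := by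
    apply Set.Subset.antisymm
    · intro y hy
      obtain ⟨x, hx, hxy⟩ := Set.mem_iUnion₂.1 (ht2 hy)
      exact Set.mem_iUnion₂.2 ⟨_, Finset.mem_image.2 ⟨x, hx, rfl⟩, hxy⟩
    · intro y hy
      obtain ⟨B, hB, hyB⟩ := Set.mem_iUnion₂.1 hy
      obtain ⟨x, hx, rfl⟩ := Finset.mem_image.1 hB
      exact (hball x (ht1 x hx)).1 hyB
  rw [e]
  refine (FR_sUnion hh m S ?_ ?_ ?_).2
  · intro B hB
    obtain ⟨x, hx, rfl⟩ := Finset.mem_image.1 hB
    exact CO_ball x k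
  · intro B hB
    obtain ⟨x, hx, rfl⟩ := Finset.mem_image.1 hB
    exact (hball x (ht1 x hx)).2
  · intro B hB B' hB' hne
    obtain ⟨x, hx, rfl⟩ := Finset.mem_image.1 hB
    obtain ⟨x', hx', rfl⟩ := Finset.mem_image.1 hB'
    rcases IsUltrametricDist.closedBall_eq_or_disjoint x x' ((p : ℝ) ^ k) with h | h
    · exact absurd h hne
    · exact h

/-- **QP-GLUE, balls** -/
theorem qp_ball : StBall := by
  intro p _ σ _ h hh m U hU hb V hVU hV
  exact glue hh m V hV fun P hP => ⟨U, hU, hVU hP, hb⟩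

/-- **QP-GLUE, compact open sets** -/
theorem qp_glue : StGlue := by
  intro p _ σ _ h hh m V hV hP
  refine glue hh m V hV fun P hPV => ?_
  obtain ⟨U, hU1, hU2, hU3⟩ := hP P hPV
  exact ⟨U, hU1, hU2, fun a k hak => hU3 _ hak (CO_ball a k)⟩

/-- **QP-GLUE, points where `h` does not vanish** -/
theorem qp_unit : StUnit := by
  intro p _ σ _ h hh m P hP
  obtain ⟨k, hk⟩ : ∃ k : ℤ, h P = (p : ℝ) ^ k := (hh.val P).resolve_left hP
  refine ⟨h ⁻¹' Set.Ioo ((p : ℝ) ^ (k - 1)) ((p : ℝ) ^ (k + 1)), isOpen_Ioo.preimage hh.cont, ?_,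
    fun V hVU hV => ?_⟩
  · rw [Set.mem_preimage, hk]
    exact ⟨zpow_lt_zpow_right₀ pR (by omega), zpow_lt_zpow_right₀ pR (by omega)⟩
  · have hV2 : ∀ x ∈ V, h x = (p : ℝ) ^ k := by
      intro x hx
      have h1 := hVU hx
      rw [Set.mem_preimage] at h1
      rcases hh.val x with h2 | ⟨j, h2⟩
      · rw [h2] at h1
        exact absurd h1.1 (not_lt.2 (zpow_pos pR0 _).le)
      · rw [h2] at h1 ⊢
        have h3 := (zpow_lt_zpow_iff_right₀ pR).1 h1.1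
        have h4 := (zpow_lt_zpow_iff_right₀ pR).1 h1.2
        have : j = k := by omega
        rw [this]
    have hx0 : ((p : ℚ_[p]) ^ (-k)) ≠ 0 := zpow_ne_zero _ (by exact_mod_cast (Fact.out : p.Prime).ne_zero)
    have hnorm : ‖((p : ℚ_[p]) ^ (-k))‖ = (p : ℝ) ^ k := by
      rw [Padic.norm_p_zpow, neg_neg]
    have h5 : FR p m (fun s => ((N p s ((p : ℚ_[p]) ^ (-k))).toReal : ℂ) * (((muE p σ V).toReal : ℝ) : ℂ)) :=
      FR.mul0 (fun T0 hT0 => reg_N hT0 _ hx0) (FR_const m _)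
    refine h5.congr fun s _ => ?_
    unfold IZ
    have h6 : ∫⁻ x in V, ENNReal.ofReal (h x ^ s) ∂(muE p σ) =
        ∫⁻ _ in V, N p s ((p : ℚ_[p]) ^ (-k)) ∂(muE p σ) := by
      refine setLIntegral_congr_fun hV.1.measurableSet fun x hx => ?_
      show ENNReal.ofReal (h x ^ s) = ENNReal.ofReal (‖((p : ℚ_[p]) ^ (-k))‖ ^ s)
      rw [hnorm, hV2 x hx]
    rw [h6, setLIntegral_const, ENNReal.toReal_mul]
    push_cast
    rfl

/-- **QP-GLUE, a constant factor** -/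
theorem qp_scale : StScale := by
  intro p _ σ _ h hh m P a ha hP
  obtain ⟨U, hU1, hU2, hU3⟩ := hP
  refine ⟨U, hU1, hU2, fun V hVU hV => ?_⟩
  have h5 : FR p m (fun s => ((N p s a).toReal : ℂ) * IZ h V s) :=
    FR.mul0 (fun T0 hT0 => reg_N hT0 _ ha) (hU3 V hVU hV)
  refine h5.congr fun s _ => ?_
  unfold IZ
  have h6 : ∀ x, ENNReal.ofReal ((‖a‖ * h x) ^ s) = N p s a * ENNReal.ofReal (h x ^ s) := by
    intro x
    rw [Real.mul_rpow (norm_nonneg _) (siz_nonneg hh x), ENNReal.ofReal_mul (by positivity)]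
    rfl
  simp only [h6]
  rw [lintegral_const_mul' _ _ (N_ne_top _ _), ENNReal.toReal_mul]
  push_cast
  rfl

end Pool.Agent.Q261.QP
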